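import Pool.Agent.V8H99.GC.Link
import Pool.Agent.V8H63.GC.Fin
import Pool.Agent.TH652.QDef
import Pool.Agent.N504.RS.TwoDef

/-!
# From the families of faces to the Betti numbers of flag complexes
-/

set_option autoImplicit false

noncomputable section

namespace Pool.Agent.V8H99.GC

open Pool.Agent.V8H27.GC

open Pool.Agent.W907.SG
open Pool.Agent.W907.SM (lk)

variable {F : Type} [Field F] {V : Type} [Fintype V] [LinearOrder V]

omit [Fintype V] [LinearOrder V] in
theorem link_clique [DecidableEq V] (G : SimpleGraph V) (S : Finset V) (hS : G.IsClique (S : Set V)) :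
    {T : Finset V | Disjoint T S ∧ T ∪ S ∈ {T : Finset V | G.IsClique (T : Set V)}} =
      {T : Finset V | G.IsClique (T : Set V) ∧ (T : Set V) ⊆ lk G S} := by
  ext T
  simp only [Set.mem_setOf_eq, Finset.coe_union]
  constructor
  · rintro ⟨h1, h2⟩
    refine ⟨h2.subset Set.subset_union_left, ?_⟩
    intro v hv u hu
    refine h2 (Or.inl hv) (Or.inr hu) ?_
    rintro rfl
    exact Finset.disjoint_left.1 h1 hv hu
  · rintro ⟨h1, h2⟩
    refine ⟨?_, ?_⟩
    · rw [Finset.disjoint_left]
      intro v hv hu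
      exact G.loopless.irrefl v (h2 hv v hu)
    · intro x hx y hy hxy
      rcases hx with hx | hx <;> rcases hy with hy | hy
      · exact h1 hx hy hxy
      · exact h2 hx y hy
      · exact (h2 hy x hx).symm
      · exact hS hx hy hxy

theorem toBeta {n : ℕ} (G : SimpleGraph V) (ρ : V → F →ₗ[F] F) (hρ : ∀ v x, ρ v x = -x)
    (h : GS F n {T : Finset V | G.IsClique (T : Set V)}) (S : Finset V) (hS : G.IsClique (S : Set V)) (i : ℕ) :
    beta G ρ (lk G S) ∅ i = if i + S.card = n then 1 else 0 := by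
  have h1 := up_iff (F := F) {T : Finset V | G.IsClique (T : Set V)} S i
  rw [link_clique G S hS] at h1
  split_ifs with h2
  · refine Pool.Agent.V8H63.GC.beta1 G ρ hρ _ _ (h1.2.1 ?_)
    rw [h2]
    exact h.top S hS
  · exact Pool.Agent.V8H63.GC.beta0 G ρ hρ _ _ (h1.1.1 (h.oth S hS _ h2))

theorem toHSph {n : ℕ} (G : SimpleGraph V) (h : GS ℝ n {T : Finset V | G.IsClique (T : Set V)}) :
    Pool.Agent.TH652.Above.HSph n G := by
  intro S hS i
  exact toBeta G _ (fun v x => by simp) h S hS i

theorem toHSph2 {n : ℕ} (G : SimpleGraph V) (h : GS (ZMod 2) n {T : Finset V | G.IsClique (T : Set V)}) :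
    Pool.Agent.N504.RS.Two.HSph2 n G := by
  intro S hS i
  refine toBeta G _ (fun v x => ?_) h S hS i
  rw [CharTwo.neg_eq]
  rfl

end Pool.Agent.V8H99.GC
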