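import Pool.Agent.V8H27.GC.Sh
import Pool.Agent.V8H27.GC.L

/-!
# The faces containing `σ`, and the link of `σ`
-/

set_option autoImplicit false

noncomputable section

namespace Pool.Agent.V8H99.GC

open Pool.Agent.V8H27.GC

open Pool.Agent.W907.SG

variable {F : Type} [Field F] {V : Type} [Fintype V] [LinearOrder V]

/-- the intermediate families -/
def mid (K : Set (Finset V)) (S1 S2 : Finset V) : Set (Finset V) := {T | S1 ⊆ T ∧ Disjoint T S2 ∧ T ∪ S2 ∈ K}

omit [Fintype V] in
theorem mid_step (K : Set (Finset V)) (S1 S2 : Finset V) (m : V) (h1 : m ∉ S1) (h2 : m ∉ S2) :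
    mid K (insert m S1) S2 = {T | m ∈ T ∧ T.erase m ∈ mid K S1 (insert m S2)} := by
  ext T
  simp only [mid, Set.mem_setOf_eq]
  constructor
  · rintro ⟨h3, h4, h5⟩
    have hm : m ∈ T := h3 (Finset.mem_insert_self _ _)
    refine ⟨hm, ?_, ?_, ?_⟩
    · intro x hx
      exact Finset.mem_erase.2 ⟨fun h => h1 (h ▸ hx), h3 (Finset.mem_insert_of_mem hx)⟩
    · rw [Finset.disjoint_insert_right]
      exact ⟨by simp, h4.mono_left (Finset.erase_subset _ _)⟩
    · rwa [Finset.union_insert, ← Finset.insert_union, Finset.insert_erase hm]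
  · rintro ⟨hm, h3, h4, h5⟩
    refine ⟨?_, ?_, ?_⟩
    · intro x hx
      rcases Finset.mem_insert.1 hx with rfl | hx
      · exact hm
      · exact Finset.mem_of_mem_erase (h3 hx)
    · rw [Finset.disjoint_insert_right] at h4
      rw [← Finset.insert_erase hm, Finset.disjoint_insert_left]
      exact ⟨h2, h4.2⟩
    · rwa [Finset.union_insert, ← Finset.insert_union, Finset.insert_erase hm] at h5

theorem mid_iff (K : Set (Finset V)) (S1 : Finset V) : ∀ (S2 : Finset V), Disjoint S1 S2 → ∀ i : ℕ,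
    (H0 F (mid K S1 S2) (i + S1.card) ↔ H0 F (mid K ∅ (S1 ∪ S2)) i) ∧
    (H1 F (mid K S1 S2) (i + S1.card) ↔ H1 F (mid K ∅ (S1 ∪ S2)) i) := by
  classical
  induction S1 using Finset.induction_on with
  | empty =>
    intro S2 _ i
    rw [Finset.empty_union, Finset.card_empty, add_zero]
    exact ⟨Iff.rfl, Iff.rfl⟩
  | insert m S1 hm ih =>
    intro S2 hS i
    rw [Finset.disjoint_insert_left] at hS
    have h1 : Disjoint S1 (insert m S2) := by
      rw [Finset.disjoint_insert_right]
      exact ⟨hm, hS.2⟩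
    have h2 := ih (insert m S2) h1 i
    have h3 : S1 ∪ insert m S2 = insert m S1 ∪ S2 := by
      rw [Finset.union_insert, Finset.insert_union]
    rw [h3] at h2
    have h4 : Iso F (mid K (insert m S1) S2) (i + (insert m S1).card) (mid K S1 (insert m S2)) (i + S1.card) := by
      rw [mid_step K S1 S2 m hm hS.1, Finset.card_insert_of_notMem hm, ← add_assoc]
      refine iso_shift m (fun T hT hmT => ?_) _
      have := hT.2.1
      rw [Finset.disjoint_insert_right] at this
      exact this.1 hmT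
    exact ⟨h4.symm0.trans h2.1, h4.symm1.trans h2.2⟩

/-- the faces containing `σ` and the link of `σ` -/
theorem up_iff (K : Set (Finset V)) (σ : Finset V) (i : ℕ) :
    (H0 F (up K σ) (i + σ.card) ↔ H0 F {T | Disjoint T σ ∧ T ∪ σ ∈ K} i) ∧
    (H1 F (up K σ) (i + σ.card) ↔ H1 F {T | Disjoint T σ ∧ T ∪ σ ∈ K} i) := by
  have h1 : up K σ = mid K σ ∅ := by
    ext T
    simp only [up, mid, Set.mem_setOf_eq, Finset.disjoint_empty_right, true_and, Finset.union_empty]
    tauto
  have h2 : {T : Finset V | Disjoint T σ ∧ T ∪ σ ∈ K} = mid K ∅ (σ ∪ ∅) := by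
    ext T
    simp only [mid, Set.mem_setOf_eq, Finset.empty_subset, true_and, Finset.union_empty]
  rw [h1, h2]
  exact mid_iff K σ ∅ (Finset.disjoint_empty_right _) i

end Pool.Agent.V8H99.GC
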